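import Pool.Agent.H82.NTC.Pot

set_option autoImplicit false

namespace Pool.NTC

open Pool.NET

theorem pmj4_col (S a c : ℤ) (hS : 0 < S) :
    S * c ≤ S * a - 2 * S ∨ S * c = S * a - S ∨ S * c = S * a ∨ S * a + S ≤ S * c := by
  rcases lt_trichotomy c a with h | h | h
  · rcases Int.lt_or_eq_of_le (Int.le_sub_one_of_lt h) with h' | h'
    · left
      nlinarith [mul_le_mul_of_nonneg_left (show c ≤ a - 2 by omega) hS.le]
    · right; left
      rw [h']; ring
  · right; right; left
    rw [h]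
  · right; right; right
    nlinarith [mul_le_mul_of_nonneg_left (show a + 1 ≤ c by omega) hS.le]

theorem pmj4_thm : PMk Ke.J4 := by
  intro p e g e' g' h u hp hp' _ v w s t hs0 hs1 ht0 ht1 hlt
  obtain ⟨q0, gq, gW, We, eM, MS⟩ := hp
  obtain ⟨_, gq', gW', We', eM', _⟩ := hp'
  obtain ⟨⟨c, d⟩, k⟩ := w
  have hS : 0 < p.S := by omega
  have hcol := pmj4_col p.S v.1 c hS
  have hpr : prM p e g h u (v, Ke.J4) = 2 * (2 * (p.S * v.1) - p.S + p.W - 5 * p.q) + 1 := by
    simp only [prM, fx, nx2]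
    ring
  have hf0 : fx p e g (v, Ke.J4) = p.S * v.1 - p.M - p.W := rfl
  rw [hpr, hf0] at hlt
  generalize hX : p.S * v.1 = X at *
  generalize hY : p.S * c = Y at *
  have key : ∀ f : ℤ, |2 * (2 * X - p.S + p.W - 5 * p.q) + 1 - 4 * (f + s)| <
      |2 * (2 * X - p.S + p.W - 5 * p.q) + 1 - 4 * (X - p.M - p.W + t)| →
      f + s < X - p.M - p.W + t ∧ X - p.S + p.M + 2 * p.W - 5 * p.q - t ≤ f + s := by
    intro f hf
    rcases abs_cases (2 * (2 * X - p.S + p.W - 5 * p.q) + 1 - 4 * (f + s)) with h1 | h1 <;>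
      rcases abs_cases (2 * (2 * X - p.S + p.W - 5 * p.q) + 1 - 4 * (X - p.M - p.W + t)) with
        h2 | h2 <;> omega
  have hk := key _ hlt
  cases k
  · left; simp only [lvM]; omega
  · left; simp only [lvM]; omega
  · exfalso; simp only [fx, hY] at hk; omega
  · exfalso; simp only [fx, hY] at hk; omega
  · left; simp only [lvM]; omega
  · left; simp only [lvM]; omega
  · exfalso; simp only [fx, hY] at hk; omega
  · exfalso; simp only [fx, hY] at hk; omega
  · exfalso; simp only [fx, hY] at hk; omega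
  · right
    refine ⟨rfl, ?_⟩
    simp only [sgM]
    simp only [fx, hY] at hk
    omega

end Pool.NTC
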